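import Mathlib
import Pool.Graph.R_seed8.Helper927.DL770

/-!
# MP_d5472a_co: symmetric Laman counts for the dihedral groups of order 4 and 6

The statement is about all finite groups acting (not only faithfully), about maximality among
*injective* symmetric placements, and contains the existence of an injective symmetric placement.
-/

set_option autoImplicit false
set_option maxHeartbeats 4000000

open Filter Topology

namespace Pool.Agent.Results.MP_d5472a_co.InjectiveExistence

/-- The rigidity matrix: one row for each ordered pair of vertices, zero unless the pair is adjacent. The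
two rows of an edge are equal, so the rank is that of the usual rigidity matrix. -/
def rigidityMatrix {V : Type} [DecidableEq V] (G : SimpleGraph V) [DecidableRel G.Adj]
    (p : V → Fin 2 → ℝ) : Matrix (V × V) (V × Fin 2) ℝ :=
  Matrix.of (fun (e : V × V) (c : V × Fin 2) =>
              if G.Adj e.1 e.2 then
                (if c.1 = e.1 then p e.1 c.2 - p e.2 c.2
                 else if c.1 = e.2 then p e.2 c.2 - p e.1 c.2 else 0)
              else 0)

/-- `p` is a `Γ`-symmetric placement (not necessarily injective). -/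
def IsSymmetric {V Γ : Type} [Group Γ] (θ : Γ →* Equiv.Perm V)
    (τ : Γ →* Matrix.orthogonalGroup (Fin 2) ℝ) (p : V → Fin 2 → ℝ) : Prop :=
  ∀ (γ : Γ) (v : V), p (θ γ v) = Matrix.mulVec (τ γ).1 (p v)

/-- The number of ordered adjacent pairs, that is, twice the number of edges. -/
def twiceEdges {V : Type} [Fintype V] [DecidableEq V] (G : SimpleGraph V) [DecidableRel G.Adj] : ℕ :=
  (Finset.univ.filter (fun x : V × V => G.Adj x.1 x.2)).card

/-- The rows of the rigidity matrix of `G(p)` (one for each edge) are linearly independent: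
`rank R_G(p) = |E|`. -/
def Independent {V : Type} [Fintype V] [DecidableEq V] (G : SimpleGraph V) [DecidableRel G.Adj]
    (p : V → Fin 2 → ℝ) : Prop :=
  2 * (rigidityMatrix G p).rank = twiceEdges G

/-- `rank R_G(p)` is at least the rank at every injective `Γ`-symmetric placement. -/
def IsMaximal {V Γ : Type} [Fintype V] [DecidableEq V] (G : SimpleGraph V) [DecidableRel G.Adj] [Group Γ]
    (θ : Γ →* Equiv.Perm V) (τ : Γ →* Matrix.orthogonalGroup (Fin 2) ℝ) (p : V → Fin 2 → ℝ) : Prop :=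
  ∀ q : V → Fin 2 → ℝ, Function.Injective q → IsSymmetric θ τ q →
    (rigidityMatrix G q).rank ≤ (rigidityMatrix G p).rank


-- fixed vector => identity for SO(2)
theorem so2_fix (A : Matrix.orthogonalGroup (Fin 2) ℝ) (hd : A.1.det = 1) (x : Fin 2 → ℝ) (hx : x ≠ 0)
    (h : A.1.mulVec x = x) : A = 1 := by
  have ho : A.1 * star A.1 = 1 := (Matrix.mem_orthogonalGroup_iff (Fin 2) ℝ).1 A.2
  have ho2 : star A.1 * A.1 = 1 := (Matrix.mem_orthogonalGroup_iff' (Fin 2) ℝ).1 A.2
  set M := A.1 with hM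
  have e1 : M 0 0 * M 0 0 + M 1 0 * M 1 0 = 1 := by
    have := congrFun (congrFun ho2 0) 0
    simpa [Matrix.mul_apply, Fin.sum_univ_two, Matrix.star_apply] using this
  have e2 : M 0 1 * M 0 1 + M 1 1 * M 1 1 = 1 := by
    have := congrFun (congrFun ho2 1) 1
    simpa [Matrix.mul_apply, Fin.sum_univ_two, Matrix.star_apply] using this
  rw [Matrix.det_fin_two] at hd
  have e3 : (M 0 0 - M 1 1)^2 + (M 0 1 + M 1 0)^2 = 0 := by nlinarith
  have e4 : M 0 0 = M 1 1 := by nlinarith [sq_nonneg (M 0 0 - M 1 1), sq_nonneg (M 0 1 + M 1 0)]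
  have e5 : M 0 1 = - M 1 0 := by nlinarith [sq_nonneg (M 0 0 - M 1 1), sq_nonneg (M 0 1 + M 1 0)]
  have h0 := congrFun h 0
  have h1 := congrFun h 1
  simp only [Matrix.mulVec, dotProduct, Fin.sum_univ_two] at h0 h1
  have hx2 : 0 < x 0 ^ 2 + x 1 ^ 2 := by
    rcases (show x 0 ≠ 0 ∨ x 1 ≠ 0 by
      by_contra hcon
      push Not at hcon
      apply hx
      funext i
      fin_cases i
      · exact hcon.1
      · exact hcon.2) with h | h
    · positivity
    · positivity
  have e6 : ((M 1 1 - 1)^2 + (M 1 0)^2) * (x 0 ^ 2 + x 1 ^ 2) = 0 := by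
    rw [e4, e5] at h0
    have a1 : (M 1 1 - 1) * x 0 - M 1 0 * x 1 = 0 := by linarith
    have a2 : M 1 0 * x 0 + (M 1 1 - 1) * x 1 = 0 := by linarith
    have : ((M 1 1 - 1)^2 + (M 1 0)^2) * (x 0 ^ 2 + x 1 ^ 2) = ((M 1 1 - 1) * x 0 - M 1 0 * x 1)^2 + (M 1 0 * x 0 + (M 1 1 - 1) * x 1)^2 := by ring
    rw [this, a1, a2]; ring
  have e7 : (M 1 1 - 1)^2 + (M 1 0)^2 = 0 := by
    rcases mul_eq_zero.1 e6 with h | h
    · exact h
    · exact absurd h hx2.ne'
  have e8 : M 1 1 = 1 := by nlinarith [sq_nonneg (M 1 1 - 1), sq_nonneg (M 1 0)]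
  have e9 : M 1 0 = 0 := by nlinarith [sq_nonneg (M 1 1 - 1), sq_nonneg (M 1 0)]
  apply Subtype.ext
  change M = 1
  ext i j
  fin_cases i <;> fin_cases j
  · simp [e4, e8]
  · simp [e5, e9]
  · simp [e9]
  · simp [e8]

theorem det_pm (A : Matrix.orthogonalGroup (Fin 2) ℝ) : A.1.det = 1 ∨ A.1.det = -1 := by
  have ho2 : star A.1 * A.1 = 1 := (Matrix.mem_orthogonalGroup_iff' (Fin 2) ℝ).1 A.2
  have := congrArg Matrix.det ho2
  rw [Matrix.det_mul, Matrix.det_one, Matrix.star_eq_conjTranspose, Matrix.det_conjTranspose] at this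
  simp only [star_trivial] at this
  exact mul_self_eq_one_iff.1 this

theorem refl_fix (A : Matrix.orthogonalGroup (Fin 2) ℝ) (hd : A.1.det = -1) :
    ∃ x : Fin 2 → ℝ, x ≠ 0 ∧ A.1.mulVec x = x := by
  have ho2 : star A.1 * A.1 = 1 := (Matrix.mem_orthogonalGroup_iff' (Fin 2) ℝ).1 A.2
  set M := A.1 with hM
  have e1 : M 0 0 * M 0 0 + M 1 0 * M 1 0 = 1 := by
    have := congrFun (congrFun ho2 0) 0
    simpa [Matrix.mul_apply, Fin.sum_univ_two, Matrix.star_apply] using this
  have e2 : M 0 1 * M 0 1 + M 1 1 * M 1 1 = 1 := by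
    have := congrFun (congrFun ho2 1) 1
    simpa [Matrix.mul_apply, Fin.sum_univ_two, Matrix.star_apply] using this
  rw [Matrix.det_fin_two] at hd
  have e3 : (M 0 0 + M 1 1)^2 + (M 0 1 - M 1 0)^2 = 0 := by nlinarith
  have e4 : M 1 1 = - M 0 0 := by nlinarith [sq_nonneg (M 0 0 + M 1 1), sq_nonneg (M 0 1 - M 1 0)]
  have e5 : M 0 1 = M 1 0 := by nlinarith [sq_nonneg (M 0 0 + M 1 1), sq_nonneg (M 0 1 - M 1 0)]
  by_cases h : M 0 0 = -1
  · refine ⟨![0, 1], ?_, ?_⟩
    · intro h0
      have := congrFun h0 1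
      simp at this
    · have e6 : M 1 0 = 0 := by
        rw [h] at e1
        have : M 1 0 * M 1 0 = 0 := by linarith
        exact mul_self_eq_zero.1 this
      funext i
      fin_cases i
      · simp [Matrix.mulVec, dotProduct, Fin.sum_univ_two, e5, e6]
      · simp [Matrix.mulVec, dotProduct, Fin.sum_univ_two, e4, h]
  · refine ⟨![1 + M 0 0, M 1 0], ?_, ?_⟩
    · intro h0
      have := congrFun h0 0
      simp at this
      apply h
      linarith
    · funext i
      fin_cases i
      · simp [Matrix.mulVec, dotProduct, Fin.sum_univ_two, e5]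
        nlinarith
      · simp [Matrix.mulVec, dotProduct, Fin.sum_univ_two, e4]
        ring

/-- separation datum -/
theorem sep {V Γ : Type} [Fintype V] [DecidableEq V] [Group Γ] [Fintype Γ]
    (θ : Γ →* Equiv.Perm V) (τ : Γ →* Matrix.orthogonalGroup (Fin 2) ℝ) (hinj : Function.Injective τ)
    (hrot : ∀ γ : Γ, (τ γ).1.det = 1 → ∀ v : V, θ γ v = v → γ = 1)
    (u v : V) (huv : u ≠ v) :
    ∃ x : Fin 2 → ℝ, x ≠ 0 ∧ (∀ γ : Γ, θ γ u = u → (τ γ).1.mulVec x = x) ∧
      ∀ γ : Γ, θ γ u = v → (τ γ).1.mulVec x ≠ x := by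
  by_cases hst : ∃ σ : Γ, θ σ u = u ∧ σ ≠ 1
  · obtain ⟨σ, hσ, hσ1⟩ := hst
    have hdσ : (τ σ).1.det = -1 := by
      rcases det_pm (τ σ) with h | h
      · exact absurd (hrot σ h u hσ) hσ1
      · exact h
    obtain ⟨x, hx0, hx⟩ := refl_fix (τ σ) hdσ
    -- any reflection fixing x and/or u
    have key1 : ∀ γ : Γ, θ γ u = u → γ ≠ 1 → γ * σ = 1 := by
      intro γ hγ hγ1
      have hdγ : (τ γ).1.det = -1 := by
        rcases det_pm (τ γ) with h | h
        · exact absurd (hrot γ h u hγ) hγ1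
        · exact h
      apply hrot (γ * σ) _ u
      · simp [hσ, hγ]
      · simp [hdσ, hdγ]
    have hσσ : σ * σ = 1 := key1 σ hσ hσ1
    refine ⟨x, hx0, ?_, ?_⟩
    · intro γ hγ
      by_cases h1 : γ = 1
      · subst h1
        simp
      · have h2 := key1 γ hγ h1
        have h3 : γ = σ := by
          have : γ * σ = σ * σ := by rw [h2, hσσ]
          exact mul_right_cancel this
        rw [h3, hx]
    · intro γ hγ hfx
      rcases det_pm (τ γ) with h | h
      · have h1 : τ γ = 1 := so2_fix (τ γ) h x hx0 hfx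
        have h2 : γ = 1 := hinj (by rw [h1, map_one])
        subst h2
        simp at hγ
        exact huv hγ
      · have h1 : τ (γ * σ) = 1 := by
          apply so2_fix (τ (γ * σ)) _ x hx0
          · rw [map_mul]
            change ((τ γ).1 * (τ σ).1).mulVec x = x
            rw [← Matrix.mulVec_mulVec, hx, hfx]
          · simp [hdσ, h]
        have h2 : γ * σ = 1 := hinj (by rw [h1, map_one])
        have h3 : γ = σ := by
          have : γ * σ = σ * σ := by rw [h2, hσσ]
          exact mul_right_cancel this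
        rw [h3, hσ] at hγ
        exact huv hγ
  · push Not at hst
    by_cases hex : ∃ γ0 : Γ, θ γ0 u = v
    · obtain ⟨γ0, hγ0⟩ := hex
      have huniq : ∀ γ : Γ, θ γ u = v → γ = γ0 := by
        intro γ hγ
        have h1 : θ (γ0⁻¹ * γ) u = u := by
          rw [map_mul, Equiv.Perm.mul_apply, hγ, ← hγ0, map_inv]
          exact (θ γ0).symm_apply_apply u
        have h2 := hst _ h1
        exact (inv_mul_eq_one.1 h2).symm
      have hne : τ γ0 ≠ 1 := by
        intro h
        have h2 : γ0 = 1 := hinj (by rw [h, map_one])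
        subst h2
        simp at hγ0
        exact huv hγ0
      have hx : ∃ x : Fin 2 → ℝ, (τ γ0).1.mulVec x ≠ x := by
        by_contra hcon
        push Not at hcon
        apply hne
        apply Subtype.ext
        change (τ γ0).1 = 1
        apply Matrix.toLin'.injective
        ext i
        simp [hcon]
      obtain ⟨x, hx⟩ := hx
      refine ⟨x, ?_, ?_, ?_⟩
      · rintro rfl
        apply hx
        simp
      · intro γ hγ
        rw [hst γ hγ]
        simp
      · intro γ hγ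
        rw [huniq γ hγ]
        exact hx
    · push Not at hex
      refine ⟨![1, 0], ?_, ?_, ?_⟩
      · intro h
        have := congrFun h 0
        simp at this
      · intro γ hγ
        rw [hst γ hγ]
        simp
      · intro γ hγ
        exact absurd hγ (hex γ)

/-- The space of symmetric placements. -/
def W {V Γ : Type} [Group Γ] (θ : Γ →* Equiv.Perm V) (τ : Γ →* Matrix.orthogonalGroup (Fin 2) ℝ) :
    Submodule ℝ (V → Fin 2 → ℝ) where
  carrier := {q | ∀ (γ : Γ) (v : V), q (θ γ v) = Matrix.mulVec (τ γ).1 (q v)}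
  add_mem' := by
    intro a b ha hb γ v
    simp only [Set.mem_ofPred_eq] at ha hb
    simp [ha γ v, hb γ v, Matrix.mulVec_add]
  zero_mem' := by
    intro γ v
    simp
  smul_mem' := by
    intro c a ha γ v
    simp only [Set.mem_ofPred_eq] at ha
    simp [ha γ v, Matrix.mulVec_smul]

theorem exists_sep {V Γ : Type} [Fintype V] [DecidableEq V] [Group Γ] [Fintype Γ]
    (θ : Γ →* Equiv.Perm V) (τ : Γ →* Matrix.orthogonalGroup (Fin 2) ℝ) (hinj : Function.Injective τ)
    (hrot : ∀ γ : Γ, (τ γ).1.det = 1 → ∀ v : V, θ γ v = v → γ = 1)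
    (u v : V) (huv : u ≠ v) : ∃ q ∈ W θ τ, q u ≠ q v := by
  classical
  obtain ⟨x, hx0, hx1, hx2⟩ := sep θ τ hinj hrot u v huv
  let q : V → Fin 2 → ℝ := fun w => ∑ γ : Γ, if θ γ u = w then (τ γ).1.mulVec x else 0
  have hq : q ∈ W θ τ := by
    intro δ w
    simp only [q]
    rw [Matrix.mulVec_sum]
    rw [← Equiv.sum_comp (Equiv.mulLeft δ)]
    refine Finset.sum_congr rfl fun γ _ => ?_
    have : (θ (δ * γ) u = θ δ w) ↔ θ γ u = w := by
      rw [map_mul, Equiv.Perm.mul_apply]
      exact (θ δ).injective.eq_iff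
    simp only [Equiv.coe_mulLeft, this]
    by_cases h : θ γ u = w
    · rw [if_pos h, if_pos h, map_mul, Matrix.mulVec_mulVec]
      rfl
    · rw [if_neg h, if_neg h, Matrix.mulVec_zero]
  have hqu : q u = ((Finset.univ.filter (fun γ : Γ => θ γ u = u)).card : ℝ) • x := by
    simp only [q]
    rw [← Finset.sum_filter]
    rw [Finset.sum_congr rfl (g := fun _ => x)]
    · rw [Finset.sum_const, Nat.cast_smul_eq_nsmul]
    · intro γ hγ
      exact hx1 γ (by simpa using hγ)
  have hpos : ((Finset.univ.filter (fun γ : Γ => θ γ u = u)).card : ℝ) ≠ 0 := by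
    have : (1 : Γ) ∈ Finset.univ.filter (fun γ : Γ => θ γ u = u) := by simp
    have := Finset.card_pos.2 ⟨_, this⟩
    positivity
  refine ⟨q, hq, ?_⟩
  by_cases hex : ∃ γ0 : Γ, θ γ0 u = v
  · obtain ⟨γ0, hγ0⟩ := hex
    intro h
    have h1 : q v = (τ γ0).1.mulVec (q u) := by
      rw [← hq γ0 u, hγ0]
    rw [h1, hqu, Matrix.mulVec_smul] at h
    exact hx2 γ0 hγ0 (smul_right_injective _ hpos h).symm
  · push Not at hex
    have h0 : q v = 0 := by
      simp only [q]
      apply Finset.sum_eq_zero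
      intro γ _
      rw [if_neg (hex γ)]
    rw [h0, hqu]
    exact smul_ne_zero hpos hx0

theorem exists_injective {V Γ : Type} [Fintype V] [DecidableEq V] [Group Γ] [Fintype Γ]
    (θ : Γ →* Equiv.Perm V) (τ : Γ →* Matrix.orthogonalGroup (Fin 2) ℝ) (hinj : Function.Injective τ)
    (hrot : ∀ γ : Γ, (τ γ).1.det = 1 → ∀ v : V, θ γ v = v → γ = 1) :
    ∃ q ∈ W θ τ, Function.Injective q := by
  classical
  by_contra hcon
  push Not at hcon
  let K : {x : V × V // x.1 ≠ x.2} → Submodule ℝ (W θ τ) := fun x =>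
    LinearMap.ker ((LinearMap.proj (R := ℝ) (φ := fun _ : V => Fin 2 → ℝ) x.1.1 -
      LinearMap.proj (R := ℝ) (φ := fun _ : V => Fin 2 → ℝ) x.1.2).comp (W θ τ).subtype)
  have hcov : ⋃ i, ((K i : Submodule ℝ (W θ τ)) : Set (W θ τ)) = Set.univ := by
    rw [Set.eq_univ_iff_forall]
    intro q
    have h := hcon q.1 q.2
    simp only [Function.Injective] at h
    push Not at h
    obtain ⟨a, b, hab, hne⟩ := h
    rw [Set.mem_iUnion]
    refine ⟨⟨(a, b), hne⟩, ?_⟩
    simp only [K, SetLike.mem_coe, LinearMap.mem_ker, LinearMap.comp_apply, Submodule.subtype_apply,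
      LinearMap.sub_apply, LinearMap.proj_apply, sub_eq_zero]
    exact hab
  obtain ⟨⟨⟨a, b⟩, hne⟩, hi⟩ := Subspace.exists_eq_top_of_iUnion_eq_univ hcov
  obtain ⟨q, hq, hqab⟩ := exists_sep θ τ hinj hrot a b hne
  have : (⟨q, hq⟩ : W θ τ) ∈ K ⟨(a, b), hne⟩ := by rw [hi]; trivial
  simp only [K, LinearMap.mem_ker, LinearMap.comp_apply, Submodule.subtype_apply,
      LinearMap.sub_apply, LinearMap.proj_apply, sub_eq_zero] at this
  exact hqab this

/-- Rank of a matrix does not drop under small perturbations along a line. -/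
theorem rank_semicont {m n : Type} [Fintype m] [Fintype n] [DecidableEq n] (A B : Matrix m n ℝ) :
    {t : ℝ | A.rank ≤ (A + t • B).rank} ∈ 𝓝 (0 : ℝ) := by
  obtain ⟨κ, a, ha, hspan, hli⟩ := exists_linearIndependent' ℝ A.row
  have : Finite κ := Finite.of_injective a ha
  have := Fintype.ofFinite κ
  have hrk : A.rank = Fintype.card κ := by
    rw [Matrix.rank_eq_finrank_span_row, ← hspan]
    exact finrank_span_eq_card hli
  have hopen : IsOpen { f : κ → (n → ℝ) | LinearIndependent ℝ f } := isOpen_setOfPred_linearIndependent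
  have hcont : Continuous (fun t : ℝ => (fun k => (A + t • B).row (a k) : κ → (n → ℝ))) := by
    apply continuous_pi
    intro k
    apply continuous_pi
    intro j
    simp only [Matrix.row, Matrix.add_apply, Matrix.smul_apply, smul_eq_mul]
    fun_prop
  have h0 : (fun k => (A + (0 : ℝ) • B).row (a k) : κ → (n → ℝ)) ∈ { f : κ → (n → ℝ) | LinearIndependent ℝ f } := by
    simp only [zero_smul, add_zero, Set.mem_ofPred_eq]
    exact hli
  have := (hopen.preimage hcont).mem_nhds h0
  filter_upwards [this] with t ht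
  simp only [Set.mem_preimage, Set.mem_ofPred_eq] at ht ⊢
  rw [hrk, Matrix.rank_eq_finrank_span_row, ← finrank_span_eq_card ht]
  apply Submodule.finrank_mono
  apply Submodule.span_mono
  rintro _ ⟨k, rfl⟩
  exact ⟨a k, rfl⟩

open Pool.Agent.DihLaman
open Pool.Agent.DihLaman.J769 (exists_D)
open Pool.Agent.DihLaman.J761 (exists_dat)
open Pool.Agent.DihLaman.J444 (exists_placement)
open Pool.Agent.DihLaman.J419 (extract)
open Pool.Agent.DihLaman.J434 (transfer)
open Pool.Agent.DihLaman.J770 (rank_le_half)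

theorem faithful (V : Type) [Fintype V] [DecidableEq V] (G : SimpleGraph V) [DecidableRel G.Adj]
    (Γ : Type) [Group Γ] [Fintype Γ]
    (θ : Γ →* Equiv.Perm V) (τ : Γ →* Matrix.orthogonalGroup (Fin 2) ℝ)
    (hG : ∀ (γ : Γ) (u v : V), G.Adj u v ↔ G.Adj (θ γ u) (θ γ v))
    (hinj : Function.Injective τ)
    (hcardΓ : Fintype.card Γ = 4 ∨ Fintype.card Γ = 6)
    (hrefl : ∃ γ : Γ, ((τ γ).1).det = -1)
    (hcount : (((Finset.univ.filter (fun x : V × V => G.Adj x.1 x.2)).card : ℤ)
        = 2 * (2 * (Fintype.card V : ℤ) - 3)))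
    (hsparse : ∀ S : Finset V, 2 ≤ S.card →
        (((S ×ˢ S).filter (fun x : V × V => G.Adj x.1 x.2)).card : ℤ)
          ≤ 2 * (2 * (S.card : ℤ) - 3))
    (htrace : ∀ γ : Γ,
        (((Finset.univ.filter (fun x : V × V => G.Adj x.1 x.2 ∧
            ((θ γ x.1 = x.1 ∧ θ γ x.2 = x.2) ∨ (θ γ x.1 = x.2 ∧ θ γ x.2 = x.1)))).card : ℝ)
          = 2 * (Matrix.trace (τ γ).1
                  * ((Finset.univ.filter (fun v : V => θ γ v = v)).card : ℝ)
                - (Matrix.trace (τ γ).1 + ((τ γ).1).det)))) :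
    ∃ q : V → Fin 2 → ℝ, Function.Injective q ∧ IsSymmetric θ τ q ∧ Independent G q := by
  obtain ⟨n, r, s, ζ, e, hn, hcard2, hrn, hr1, hss, hsrs, hsr, hgen, hζ, hζ1, he, hr, hs, hdetr, hdets⟩ :=
    extract Γ τ hinj hcardΓ hrefl
  have hRn : (θ r) ^ n = 1 := by rw [← map_pow, hrn, map_one]
  have hSS : (θ s) * (θ s) = 1 := by rw [← map_mul, hss, map_one]
  have hSRS : (θ s) * (θ r) * (θ s) = (θ r)⁻¹ := by rw [← map_mul, ← map_mul, hsrs, map_inv]
  have hGR : ∀ a b, G.Adj (θ r a) (θ r b) ↔ G.Adj a b := fun a b => (hG r a b).symm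
  have hGS : ∀ a b, G.Adj (θ s a) (θ s b) ↔ G.Adj a b := fun a b => (hG s a b).symm
  have hcount' : (Finset.univ.filter (fun x : V × V => G.Adj x.1 x.2)).card + 6 = 4 * Fintype.card V := by
    omega
  have hsparse' : ∀ C : Finset V, 2 ≤ C.card →
      ((C ×ˢ C).filter (fun x : V × V => G.Adj x.1 x.2)).card + 6 ≤ 4 * C.card := by
    intro C hC
    have := hsparse C hC
    omega
  have hfixR : ∀ k : ℕ, 0 < k → k < n → (∀ v, ((θ r) ^ k) v ≠ v) ∧
      (Finset.univ.filter (fun x : V × V => G.Adj x.1 x.2 ∧ ((((θ r) ^ k) x.1 = x.1 ∧ ((θ r) ^ k) x.2 = x.2) ∨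
        (((θ r) ^ k) x.1 = x.2 ∧ ((θ r) ^ k) x.2 = x.1)))).card = if n = 2 then 2 else 0 := by
    intro k hk0 hkn
    obtain ⟨hd, ht⟩ := hdetr k hk0 hkn
    have h1 := htrace (r ^ k)
    rw [hd, ht, map_pow] at h1
    set F := (Finset.univ.filter (fun v : V => ((θ r) ^ k) v = v)).card with hF
    set N := (Finset.univ.filter (fun x : V × V => G.Adj x.1 x.2 ∧ ((((θ r) ^ k) x.1 = x.1 ∧ ((θ r) ^ k) x.2 = x.2) ∨
        (((θ r) ^ k) x.1 = x.2 ∧ ((θ r) ^ k) x.2 = x.1)))).card with hN
    have hF0 : F = 0 ∧ N = if n = 2 then 2 else 0 := by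
      rcases hn with hn | hn
      · simp only [hn, if_true] at h1 ⊢
        have h2 : (N : ℝ) + 4 * (F : ℝ) = 2 := by linarith
        have h3 : N + 4 * F = 2 := by exact_mod_cast h2
        omega
      · have h32 : ¬ (3 = 2) := by norm_num
        simp only [hn, h32, if_false] at h1 ⊢
        have h2 : (N : ℝ) + 2 * (F : ℝ) = 0 := by linarith
        have h3 : N + 2 * F = 0 := by exact_mod_cast h2
        omega
    refine ⟨fun v hv => ?_, hF0.2⟩
    have h4 := hF0.1
    rw [hF, Finset.card_eq_zero, Finset.filter_eq_empty_iff] at h4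
    exact h4 (Finset.mem_univ v) hv
  have hfixS : ∀ k : ℕ, (Finset.univ.filter (fun x : V × V => G.Adj x.1 x.2 ∧
      ((((θ r) ^ k * (θ s)) x.1 = x.1 ∧ ((θ r) ^ k * (θ s)) x.2 = x.2) ∨
        (((θ r) ^ k * (θ s)) x.1 = x.2 ∧ ((θ r) ^ k * (θ s)) x.2 = x.1)))).card = 2 := by
    intro k
    obtain ⟨hd, ht⟩ := hdets k
    have h1 := htrace (r ^ k * s)
    rw [hd, ht, map_mul, map_pow] at h1
    have h2 : (((Finset.univ.filter (fun x : V × V => G.Adj x.1 x.2 ∧
      ((((θ r) ^ k * (θ s)) x.1 = x.1 ∧ ((θ r) ^ k * (θ s)) x.2 = x.2) ∨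
        (((θ r) ^ k * (θ s)) x.1 = x.2 ∧ ((θ r) ^ k * (θ s)) x.2 = x.1)))).card : ℕ) : ℝ) = ((2 : ℕ) : ℝ) := by
      rw [h1]; norm_num
    exact_mod_cast h2
  obtain ⟨u0, v0, m, rep, hdat⟩ := exists_dat G n hn (θ r) (θ s) ζ hRn hSS hSRS hζ hζ1 hGR hGS hsparse' hcount'
    hfixR hfixS
  obtain ⟨D, hanti, heq, hnz, h0, hγ, hrest⟩ := exists_D G n (θ r) (θ s) ζ u0 v0 m rep hdat
  obtain ⟨z, hz, hk⟩ := exists_placement G n (θ r) (θ s) ζ hRn hSS hSRS hGR hGS hζ hζ1 hcount' D hanti heq hnz
    h0 hγ hrest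
  have hn0 : 0 < n := by rcases hn with h | h <;> omega
  obtain ⟨q, hq, hrk⟩ := transfer G θ τ hG n hn0 r s ζ e hgen hrn hss hsrs hζ he hr hs z hz hk
  have hrot : ∀ γ : Γ, (τ γ).1.det = 1 → ∀ v : V, θ γ v = v → γ = 1 := by
    intro γ hγ v hv
    obtain ⟨k, hk1, hk2 | hk2⟩ := hgen γ
    · by_cases hk0 : k = 0
      · rw [hk2, hk0, pow_zero]
      · exfalso
        apply (hfixR k (Nat.pos_of_ne_zero hk0) hk1).1 v
        rw [← map_pow, ← hk2]
        exact hv
    · exfalso
      have := (hdets k).1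
      rw [← hk2, hγ] at this
      norm_num at this
  obtain ⟨q0, hq0, hq0inj⟩ := exists_injective θ τ hinj hrot
  have hlin : ∀ t : ℝ, rigidityMatrix G (q + t • q0) = rigidityMatrix G q + t • rigidityMatrix G q0 := by
    intro t
    ext e c
    simp only [rigidityMatrix, Matrix.of_apply, Pi.add_apply, Pi.smul_apply, Matrix.add_apply,
      Matrix.smul_apply, smul_eq_mul]
    split_ifs <;> ring
  have hnb := rank_semicont (rigidityMatrix G q) (rigidityMatrix G q0)
  have hbad : Set.Finite (⋃ x : {x : V × V // x.1 ≠ x.2},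
      {t : ℝ | (q + t • q0) x.1.1 = (q + t • q0) x.1.2}) := by
    apply Set.finite_iUnion
    rintro ⟨⟨a, b⟩, hne⟩
    apply Set.Subsingleton.finite
    intro t ht t' ht'
    simp only [Set.mem_ofPred_eq, Pi.add_apply, Pi.smul_apply] at ht ht'
    have h0 : q0 a - q0 b ≠ 0 := sub_ne_zero.2 (fun h => hne (hq0inj h))
    have h1 : (t - t') • (q0 a - q0 b) = 0 := by
      have e1 : t • (q0 a - q0 b) = q b - q a := by
        rw [smul_sub]
        have : q a + t • q0 a - (q b + t • q0 b) = 0 := sub_eq_zero.2 ht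
        rw [sub_eq_zero] at this
        have h2 := sub_eq_sub_iff_add_eq_add.2 (show t • q0 a + q a = q b + t • q0 b by rw [add_comm]; exact this)
        exact h2
      have e2 : t' • (q0 a - q0 b) = q b - q a := by
        rw [smul_sub]
        have : q a + t' • q0 a - (q b + t' • q0 b) = 0 := sub_eq_zero.2 ht'
        rw [sub_eq_zero] at this
        have h2 := sub_eq_sub_iff_add_eq_add.2 (show t' • q0 a + q a = q b + t' • q0 b by rw [add_comm]; exact this)
        exact h2
      rw [sub_smul, e1, e2, sub_self]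
    rcases smul_eq_zero.1 h1 with h | h
    · exact sub_eq_zero.1 h
    · exact absurd h h0
  obtain ⟨t, ht1, ht2⟩ := ((infinite_of_mem_nhds (0 : ℝ) hnb).sdiff hbad).nonempty
  simp only [Set.mem_ofPred_eq, ← hlin] at ht1
  have hsymt : IsSymmetric θ τ (q + t • q0) := by
    have hqW : q ∈ W θ τ := hq
    exact (W θ τ).add_mem hqW ((W θ τ).smul_mem t hq0)
  refine ⟨q + t • q0, ?_, hsymt, ?_⟩
  · intro a b hab
    by_contra hne
    apply ht2
    rw [Set.mem_iUnion]
    exact ⟨⟨(a, b), hne⟩, hab⟩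
  · have h2 := rank_le_half G (q + t • q0)
    have h3 : 2 * Fintype.card V ≤ (rigidityMatrix G q).rank + 3 := hrk
    have h4 : 2 * (rigidityMatrix G (q + t • q0)).rank ≤ twiceEdges G := h2
    have h5 : twiceEdges G + 6 = 4 * Fintype.card V := hcount'
    change 2 * (rigidityMatrix G (q + t • q0)).rank = twiceEdges G
    omega

/-- A symmetric injective placement forces the kernel of `τ` to act trivially. -/
theorem ker_trivial {V Γ : Type} [Group Γ] (θ : Γ →* Equiv.Perm V)
    (τ : Γ →* Matrix.orthogonalGroup (Fin 2) ℝ) (p : V → Fin 2 → ℝ) (hp : Function.Injective p)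
    (hs : IsSymmetric θ τ p) (γ : Γ) (hγ : τ γ = 1) : θ γ = 1 := by
  ext v
  apply hp
  rw [hs γ v, hγ]
  simp

theorem result (V : Type) [Fintype V] [DecidableEq V] (G : SimpleGraph V) [DecidableRel G.Adj]
    (Γ : Type) [Group Γ] [Fintype Γ]
    (θ : Γ →* Equiv.Perm V) (τ : Γ →* Matrix.orthogonalGroup (Fin 2) ℝ)
    (hG : ∀ (γ : Γ) (u v : V), G.Adj u v ↔ G.Adj (θ γ u) (θ γ v))
    (hcardΓ : Nat.card τ.range = 4 ∨ Nat.card τ.range = 6)
    (hrefl : ∃ γ : Γ, ((τ γ).1).det = -1)
    (hcount : (twiceEdges G : ℤ) = 2 * (2 * (Fintype.card V : ℤ) - 3))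
    (hsparse : ∀ S : Finset V, 2 ≤ S.card →
        (((S ×ˢ S).filter (fun x : V × V => G.Adj x.1 x.2)).card : ℤ)
          ≤ 2 * (2 * (S.card : ℤ) - 3))
    (htrace : ∀ γ : Γ,
        (((Finset.univ.filter (fun x : V × V => G.Adj x.1 x.2 ∧
            ((θ γ x.1 = x.1 ∧ θ γ x.2 = x.2) ∨ (θ γ x.1 = x.2 ∧ θ γ x.2 = x.1)))).card : ℝ)
          = 2 * (Matrix.trace (τ γ).1
                  * ((Finset.univ.filter (fun v : V => θ γ v = v)).card : ℝ)
                - (Matrix.trace (τ γ).1 + ((τ γ).1).det)))) :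
    -- every framework of maximal rank among the symmetric frameworks is isostatic
    (∀ p : V → Fin 2 → ℝ, Function.Injective p → IsSymmetric θ τ p → IsMaximal G θ τ p →
      Independent G p) ∧
    -- symmetric frameworks exist exactly when `ker τ` acts trivially on the graph
    ((∃ p : V → Fin 2 → ℝ, Function.Injective p ∧ IsSymmetric θ τ p) ↔
      ∀ γ : Γ, τ γ = 1 → θ γ = 1) ∧
    -- and in that case isostatic symmetric frameworks exist, and coinciding vertices are allowed in the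
    -- first assertion
    ((∀ γ : Γ, τ γ = 1 → θ γ = 1) →
      (∃ p : V → Fin 2 → ℝ, Function.Injective p ∧ IsSymmetric θ τ p ∧ Independent G p) ∧
      ∀ p : V → Fin 2 → ℝ, IsSymmetric θ τ p → IsMaximal G θ τ p → Independent G p) := by
  classical
  have main : (∀ γ : Γ, τ γ = 1 → θ γ = 1) →
      ∃ p : V → Fin 2 → ℝ, Function.Injective p ∧ IsSymmetric θ τ p ∧ Independent G p := by
    intro hker
    have hle : τ.rangeRestrict.ker ≤ θ.ker := by
      intro γ hγ
      rw [MonoidHom.mem_ker] at hγ ⊢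
      apply hker
      exact congrArg Subtype.val hγ
    have hsurj : Function.Surjective τ.rangeRestrict := τ.rangeRestrict_surjective
    let θ' : τ.range →* Equiv.Perm V := τ.rangeRestrict.liftOfSurjective hsurj ⟨θ, hle⟩
    have hθ' : ∀ γ : Γ, θ' (τ.rangeRestrict γ) = θ γ := by
      intro γ
      exact MonoidHom.liftOfRightInverse_comp_apply _ _ (Function.rightInverse_surjInv hsurj) ⟨θ, hle⟩ γ
    have : Finite τ.range := Finite.of_surjective _ hsurj
    letI : Fintype τ.range := Fintype.ofFinite _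
    have hval : ∀ γ : Γ, (τ.range.subtype (τ.rangeRestrict γ)) = τ γ := fun γ => rfl
    obtain ⟨q, hqi, hqs, hqI⟩ := faithful V G τ.range θ' τ.range.subtype (by
      intro γ' u v
      obtain ⟨γ, rfl⟩ := hsurj γ'
      rw [hθ']
      exact hG γ u v) Subtype.val_injective (by rwa [← Nat.card_eq_fintype_card]) (by
      obtain ⟨γ, hγ⟩ := hrefl
      exact ⟨τ.rangeRestrict γ, by rw [hval]; exact hγ⟩) hcount hsparse (by
      intro γ'
      obtain ⟨γ, rfl⟩ := hsurj γ'
      rw [hval, hθ']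
      exact htrace γ)
    refine ⟨q, hqi, ?_, hqI⟩
    intro γ v
    have := hqs (τ.rangeRestrict γ) v
    rw [hval, hθ'] at this
    exact this
  have main2 : (∀ γ : Γ, τ γ = 1 → θ γ = 1) →
      ∀ p : V → Fin 2 → ℝ, IsSymmetric θ τ p → IsMaximal G θ τ p → Independent G p := by
    intro hker p hps hpm
    obtain ⟨q, hqi, hqs, hqI⟩ := main hker
    have h1 := hpm q hqi hqs
    have h2 : 2 * (rigidityMatrix G p).rank ≤ twiceEdges G := rank_le_half G p
    have h3 : 2 * (rigidityMatrix G q).rank = twiceEdges G := hqI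
    change 2 * (rigidityMatrix G p).rank = twiceEdges G
    omega
  refine ⟨fun p hpi hps hpm => main2 (ker_trivial θ τ p hpi hps) p hps hpm, ⟨?_, ?_⟩, ?_⟩
  · rintro ⟨p, hpi, hps⟩
    exact ker_trivial θ τ p hpi hps
  · intro hker
    obtain ⟨q, hqi, hqs, -⟩ := main hker
    exact ⟨q, hqi, hqs⟩
  · intro hker
    exact ⟨main hker, main2 hker⟩

end Pool.Agent.Results.MP_d5472a_co.InjectiveExistence
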